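import Pool.Agent.Helper24.KK.GoalsB

/-!
# Project KK, packet MGF: the matrix martingale inequality (MP_9a4587_an)
-/

set_option autoImplicit false

namespace Pool.Agent.Helper75.KK

open Finset MeasureTheory Filter Matrix
open Pool.Agent.Helper49.RS (PredBern bdd_integrable)
open Pool.Agent.Helper24.KK
open scoped ComplexOrder

section Mat

variable {d : Type} [Fintype d] [DecidableEq d]

/-- a real matrix as a complex matrix -/
noncomputable def cr (a : d → d → ℝ) : Matrix d d ℂ := Matrix.of fun i j => ((a i j : ℝ) : ℂ)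

/-- the symmetrization -/
noncomputable def sy (a : d → d → ℝ) : d → d → ℝ := fun i j => (a i j + a j i) / 2

theorem cm_eq (a : d → d → ℝ) : cm a = cr (sy a) := rfl

theorem cr_zero : cr (0 : d → d → ℝ) = 0 := by
  ext i j
  simp [cr]

theorem cr_add (a b : d → d → ℝ) : cr (a + b) = cr a + cr b := by
  ext i j
  simp [cr]

theorem cr_smul (c : ℝ) (a : d → d → ℝ) : cr (c • a) = c • cr a := by
  ext i j
  simp [cr]

theorem cr_sum {ι : Type} (s : Finset ι) (f : ι → d → d → ℝ) :
    cr (∑ p ∈ s, f p) = ∑ p ∈ s, cr (f p) := by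
  classical
  induction s using Finset.induction_on with
  | empty => simp [cr_zero]
  | insert a s ha ih => rw [Finset.sum_insert ha, Finset.sum_insert ha, cr_add, ih]

theorem cr_cont : Continuous (cr : (d → d → ℝ) → Matrix d d ℂ) := by
  refine continuous_matrix fun i j => ?_
  simp only [cr, Matrix.of_apply]
  exact Complex.continuous_ofReal.comp ((continuous_apply j).comp (continuous_apply i))

set_option backward.isDefEq.respectTransparency false in
theorem mexp_cont : Continuous (NormedSpace.exp : Matrix d d ℂ → Matrix d d ℂ) :=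
  open scoped Norms.Operator in NormedSpace.exp_continuous

/-- the trace of the exponential -/
noncomputable def g (a : d → d → ℝ) : ℝ := (trace (NormedSpace.exp (cr a))).re

theorem g_cont : Continuous (g : (d → d → ℝ) → ℝ) := by
  unfold g
  exact Complex.continuous_re.comp ((mexp_cont.comp cr_cont).matrix_trace)

theorem cr_herm (a : d → d → ℝ) (h : ∀ i j, a i j = a j i) : (cr a).IsHermitian := by
  ext i j
  simp [cr, h i j]

theorem g_bound (hE : EIG) (a : d → d → ℝ) (h : ∀ i j, a i j = a j i) (C : ℝ)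
    (hr : ∀ i, ∑ j, |a i j| ≤ C) : |g a| ≤ Fintype.card d * Real.exp C := by
  have h1 := hE d (cr a) (cr_herm a h) C (by
    intro i
    refine le_trans (le_of_eq ?_) (hr i)
    refine Finset.sum_congr rfl fun j _ => ?_
    simp [cr])
  unfold g
  rw [Pool.Agent.Helper15.An.trace_exp (cr_herm a h),
    abs_of_nonneg (Finset.sum_nonneg fun i _ => (Real.exp_pos _).le)]
  calc ∑ i, Real.exp ((cr_herm a h).eigenvalues i) ≤ ∑ _i : d, Real.exp C :=
        Finset.sum_le_sum fun i _ => Real.exp_le_exp.2 ((abs_le.1 (h1 i)).2)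
    _ = Fintype.card d * Real.exp C := by simp

theorem sy_symm (a : d → d → ℝ) (i j : d) : sy a i j = sy a j i := by
  unfold sy
  ring

theorem sy_row (a : d → d → ℝ) (δ : ℝ) (h1 : ∀ i, ∑ j, |a i j| ≤ δ)
    (h2 : ∀ j, ∑ i, |a i j| ≤ δ) (i : d) : ∑ j, |sy a i j| ≤ δ := by
  have h3 : ∀ j, |sy a i j| ≤ |a i j| / 2 + |a j i| / 2 := by
    intro j
    unfold sy
    rw [abs_div, abs_two, ← add_div]
    exact div_le_div_of_nonneg_right (abs_add_le _ _) (by norm_num)
  refine (Finset.sum_le_sum fun j _ => h3 j).trans ?_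
  rw [Finset.sum_add_distrib, ← Finset.sum_div, ← Finset.sum_div]
  linarith [h1 i, h2 i]

end Mat

/-- packet MGF -/
theorem mgf (hE : EIG) (hS : STP) : MGF := by
  intro Ω _ P _ X q F hP d _ _ A δ θ hA hr hc hθ hθδ
  -- the real matrices
  set Z : ℕ → Ω → d → d → ℝ := fun n ω => θ • ∑ p ∈ range n, (X p ω - q p) • sy (A p ω) with hZ
  have hX1 : ∀ p ω, |X p ω - q p| ≤ 1 := by
    intro p ω
    rcases hP.zo p ω with h0 | h0 <;> rw [h0, abs_le] <;> constructor <;>
      linarith [hP.q0 p, hP.q1 p]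
  have hZe : ∀ n ω, (trace (NormedSpace.exp
      (θ • ∑ p ∈ range n, (X p ω - q p) • cm (A p ω)))).re = g (Z n ω) := by
    intro n ω
    unfold g
    rw [hZ]
    simp only [cr_smul, cr_sum, cm_eq]
  have hZs : ∀ n ω i j, Z n ω i j = Z n ω j i := by
    intro n ω i j
    simp only [hZ, Pi.smul_apply, Finset.sum_apply, smul_eq_mul]
    congr 1
    refine Finset.sum_congr rfl fun p _ => ?_
    rw [sy_symm]
  have hZr : ∀ n ω i, ∑ j, |Z n ω i j| ≤ n * (θ * δ) := by
    intro n ω i
    have h1 : ∀ j, |Z n ω i j| ≤ θ * ∑ p ∈ range n, |sy (A p ω) i j| := by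
      intro j
      simp only [hZ, Pi.smul_apply, Finset.sum_apply, smul_eq_mul]
      rw [abs_mul, abs_of_nonneg hθ]
      refine mul_le_mul_of_nonneg_left ?_ hθ
      refine (Finset.abs_sum_le_sum_abs _ _).trans (Finset.sum_le_sum fun p _ => ?_)
      rw [abs_mul]
      calc |X p ω - q p| * |sy (A p ω) i j| ≤ 1 * |sy (A p ω) i j| :=
            mul_le_mul_of_nonneg_right (hX1 p ω) (abs_nonneg _)
        _ = |sy (A p ω) i j| := one_mul _
    refine (Finset.sum_le_sum fun j _ => h1 j).trans ?_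
    rw [← Finset.mul_sum, Finset.sum_comm]
    calc θ * ∑ p ∈ range n, ∑ j, |sy (A p ω) i j| ≤ θ * ∑ _p ∈ range n, δ :=
          mul_le_mul_of_nonneg_left (Finset.sum_le_sum fun p _ =>
            sy_row (A p ω) δ (hr p ω) (hc p ω) i) hθ
      _ = n * (θ * δ) := by
          rw [Finset.sum_const, card_range, nsmul_eq_mul]
          ring
  -- the perturbed matrices
  have hYs : ∀ n ω (c : ℝ) i j, (Z n ω + c • sy (A n ω)) i j = (Z n ω + c • sy (A n ω)) j i := by
    intro n ω c i j
    simp only [Pi.add_apply, Pi.smul_apply]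
    rw [hZs n ω i j, sy_symm (A n ω) i j]
  have hYr : ∀ n ω (c : ℝ), |c| ≤ θ → ∀ i, ∑ j, |(Z n ω + c • sy (A n ω)) i j| ≤
      n * (θ * δ) + θ * δ := by
    intro n ω c hc1 i
    have h1 : ∀ j, |(Z n ω + c • sy (A n ω)) i j| ≤ |Z n ω i j| + θ * |sy (A n ω) i j| := by
      intro j
      simp only [Pi.add_apply, Pi.smul_apply, smul_eq_mul]
      refine (abs_add_le _ _).trans (add_le_add_right ?_ _)
      rw [abs_mul]
      exact mul_le_mul_of_nonneg_right hc1 (abs_nonneg _)
    refine (Finset.sum_le_sum fun j _ => h1 j).trans ?_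
    rw [Finset.sum_add_distrib, ← Finset.mul_sum]
    exact add_le_add (hZr n ω i) (mul_le_mul_of_nonneg_left
      (sy_row (A n ω) δ (hr n ω) (hc n ω) i) hθ)
  -- measurability
  have hsm : ∀ n p, p ≤ n → ∀ i j, Measurable[F n] (fun ω => sy (A p ω) i j) := by
    intro n p hp i j
    unfold sy
    have h1 : Measurable[F n] (fun ω => A p ω i j) := (hA p i j).mono (hP.mono hp) le_rfl
    have h2 : Measurable[F n] (fun ω => A p ω j i) := (hA p j i).mono (hP.mono hp) le_rfl
    exact (h1.add h2).div_const 2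
  have hZm : ∀ n i j, Measurable[F n] (fun ω => Z n ω i j) := by
    intro n i j
    simp only [hZ, Pi.smul_apply, Finset.sum_apply, smul_eq_mul]
    refine Measurable.const_mul (Finset.measurable_sum _ fun p hp => ?_) θ
    have hp' := mem_range.1 hp
    exact ((hP.meas_le hp').sub measurable_const).mul (hsm n p hp'.le i j)
  have hYm : ∀ n (c : ℝ), Measurable[F n] (fun ω => g (Z n ω + c • sy (A n ω))) := by
    intro n c
    have h1 : Measurable[F n] (fun ω => Z n ω + c • sy (A n ω)) := by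
      refine @measurable_pi_lambda _ _ _ (F n) _ _ fun i => ?_
      refine @measurable_pi_lambda _ _ _ (F n) _ _ fun j => ?_
      simp only [Pi.add_apply, Pi.smul_apply, smul_eq_mul]
      exact (hZm n i j).add ((hsm n n le_rfl i j).const_mul c)
    exact g_cont.measurable.comp h1
  have hZgm : ∀ n, Measurable[F n] (fun ω => g (Z n ω)) := by
    intro n
    have h1 : Measurable[F n] (fun ω => Z n ω) := by
      refine @measurable_pi_lambda _ _ _ (F n) _ _ fun i => ?_
      refine @measurable_pi_lambda _ _ _ (F n) _ _ fun j => ?_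
      exact hZm n i j
    exact g_cont.measurable.comp h1
  have hZgb : ∀ n ω, |g (Z n ω)| ≤ Fintype.card d * Real.exp (n * (θ * δ)) := fun n ω =>
    g_bound hE _ (hZs n ω) _ (hZr n ω)
  have hYgb : ∀ n (c : ℝ), |c| ≤ θ → ∀ ω, |g (Z n ω + c • sy (A n ω))| ≤
      Fintype.card d * Real.exp (n * (θ * δ) + θ * δ) := fun n c hc1 ω =>
    g_bound hE _ (hYs n ω c) _ (hYr n ω c hc1)
  have hint : ∀ n, Integrable (fun ω => g (Z n ω)) P := fun n =>
    bdd_integrable _ ((hZgm n).mono (hP.le n) le_rfl) _ (hZgb n)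
  simp only [hZe]
  intro n
  refine ⟨hint n, ?_⟩
  induction n with
  | zero =>
    have h0 : ∀ ω, g (Z 0 ω) = Fintype.card d := by
      intro ω
      have : Z 0 ω = 0 := by simp [hZ]
      rw [this]
      unfold g
      rw [cr_zero, NormedSpace.exp_zero, trace_one]
      simp
    simp [h0]
  | succ n ih =>
    set c1 : ℝ := θ * (1 - q n) with hc1
    set c2 : ℝ := -(θ * q n) with hc2
    have q0 := hP.q0 n
    have q1 := hP.q1 n
    have b1 : |c1| ≤ θ := by
      rw [hc1, abs_mul, abs_of_nonneg hθ, abs_of_nonneg (by linarith)]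
      nlinarith
    have b2 : |c2| ≤ θ := by
      rw [hc2, abs_neg, abs_mul, abs_of_nonneg hθ, abs_of_nonneg q0]
      nlinarith
    set Φ1 : Ω → ℝ := fun ω => g (Z n ω + c1 • sy (A n ω)) with hΦ1
    set Φ2 : Ω → ℝ := fun ω => g (Z n ω + c2 • sy (A n ω)) with hΦ2
    have hm1 : Measurable[F n] Φ1 := hYm n c1
    have hm2 : Measurable[F n] Φ2 := hYm n c2
    have hb1 := hYgb n c1 b1
    have hb2 := hYgb n c2 b2
    set C : ℝ := Fintype.card d * Real.exp (n * (θ * δ) + θ * δ) with hC
    have hm1' : Measurable Φ1 := hm1.mono (hP.le n) le_rfl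
    have hm2' : Measurable Φ2 := hm2.mono (hP.le n) le_rfl
    have hXm : Measurable (X n) := (hP.meas n).mono (hP.le _) le_rfl
    have hXb : ∀ ω, |X n ω| ≤ 1 := fun ω => by rcases hP.zo n ω with h0 | h0 <;> simp [h0]
    have i1 : Integrable Φ1 P := bdd_integrable Φ1 hm1' _ hb1
    have i2 : Integrable Φ2 P := bdd_integrable Φ2 hm2' _ hb2
    have iX1 : Integrable (fun ω => X n ω * Φ1 ω) P := by
      refine bdd_integrable _ (hXm.mul hm1') (1 * C) fun ω => ?_
      rw [abs_mul]
      exact mul_le_mul (hXb ω) (hb1 ω) (abs_nonneg _) (by norm_num)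
    have iX2 : Integrable (fun ω => X n ω * Φ2 ω) P := by
      refine bdd_integrable _ (hXm.mul hm2') (1 * C) fun ω => ?_
      rw [abs_mul]
      exact mul_le_mul (hXb ω) (hb2 ω) (abs_nonneg _) (by norm_num)
    have key : ∀ ω, g (Z (n + 1) ω) = X n ω * Φ1 ω + (Φ2 ω - X n ω * Φ2 ω) := by
      intro ω
      have e : Z (n + 1) ω = Z n ω + (θ * (X n ω - q n)) • sy (A n ω) := by
        simp only [hZ]
        rw [Finset.sum_range_succ, smul_add, smul_smul]
      rw [e]
      rcases hP.zo n ω with h0 | h0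
      · rw [h0, hΦ2, hc2]
        simp
      · rw [h0, hΦ1, hc1]
        simp
    have e1 : ∫ ω, g (Z (n + 1) ω) ∂P
        = q n * ∫ ω, Φ1 ω ∂P + (∫ ω, Φ2 ω ∂P - q n * ∫ ω, Φ2 ω ∂P) := by
      rw [integral_congr_ae (Eventually.of_forall key), ← hP.fac n Φ1 hm1 ⟨_, hb1⟩,
        ← hP.fac n Φ2 hm2 ⟨_, hb2⟩, ← integral_sub i2 iX2]
      exact integral_add iX1 (i2.sub iX2)
    have e2 : q n * ∫ ω, Φ1 ω ∂P + (∫ ω, Φ2 ω ∂P - q n * ∫ ω, Φ2 ω ∂P)
        = ∫ ω, (q n * Φ1 ω + (1 - q n) * Φ2 ω) ∂P := by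
      rw [integral_add (i1.const_mul _) (i2.const_mul _), integral_const_mul, integral_const_mul]
      ring
    have key2 : ∀ ω, q n * Φ1 ω + (1 - q n) * Φ2 ω ≤
        Real.exp (q n * (θ ^ 2 * δ ^ 2)) * g (Z n ω) := by
      intro ω
      have hH := cr_herm (sy (A n ω)) (sy_symm (A n ω))
      have hev := hE d (cr (sy (A n ω))) hH δ (by
        intro i
        refine le_trans (le_of_eq ?_) (sy_row (A n ω) δ (hr n ω) (hc n ω) i)
        refine Finset.sum_congr rfl fun j _ => ?_
        simp [cr])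
      have := hS d (cr (Z n ω)) (cr (sy (A n ω))) (cr_herm _ (hZs n ω)) hH (q n) δ θ q0 q1 hθ hθδ
        hev
      rw [← cr_smul, ← cr_smul, ← cr_add, ← cr_add] at this
      exact this
    rw [e1, e2]
    calc ∫ ω, (q n * Φ1 ω + (1 - q n) * Φ2 ω) ∂P
        ≤ ∫ ω, Real.exp (q n * (θ ^ 2 * δ ^ 2)) * g (Z n ω) ∂P :=
          integral_mono ((i1.const_mul _).add (i2.const_mul _)) ((hint n).const_mul _) key2
      _ = Real.exp (q n * (θ ^ 2 * δ ^ 2)) * ∫ ω, g (Z n ω) ∂P := integral_const_mul _ _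
      _ ≤ Real.exp (q n * (θ ^ 2 * δ ^ 2)) *
          (Fintype.card d * Real.exp ((θ ^ 2 * δ ^ 2) * ∑ p ∈ range n, q p)) :=
          mul_le_mul_of_nonneg_left ih (Real.exp_pos _).le
      _ = Fintype.card d * Real.exp ((θ ^ 2 * δ ^ 2) * ∑ p ∈ range (n + 1), q p) := by
          rw [Finset.sum_range_succ, mul_add, Real.exp_add, mul_comm (q n) (θ ^ 2 * δ ^ 2)]
          ring

end Pool.Agent.Helper75.KK
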